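import Mathlib
import Pool.Agent.Q248.BDP.Rnd
import Pool.Agent.Q248.BDP.Slq

/-!
# Powers of a linear form on the quotients by exponentially many generic forms

Let `K` be a field of characteristic zero. For `M = 14 κ ^ 2 u C ^ u` and
`r ≤ C ^ ((u - 1) * min (n / M) δ)` generic forms of arbitrary degrees `≥ δ` in `n + 1` variables
there is a linear form `l ≠ 0` for which the multiplication by `l ^ e` from degree `i` to degree `i + e` of the
quotient is injective for all `i + e < κ δ`. It also holds in these degrees for `r ≤ n ^ q / M`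
forms of arbitrary degrees `≥ δ ≥ q`, with an `M` that depends on `q` and `κ` only.

Idea of the proof. We specialise the forms to products of powers of linear forms in disjoint
blocks of variables (as in `MP_3395a4_ag.BeyondTwice`), and the linear form to a variable that is
not in the blocks. This shows that the Hilbert function of the quotient by the forms together with
the `e`-th power of a linear form is given by the formula of Fröberg, below degree `κ δ`, and so is
that of the quotient by the forms. Then the multiplication is injective.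
-/

set_option autoImplicit false

namespace Pool.Agent.Results.MP_2ad852_ag.StrongBelowMultiples

open MvPolynomial

/-- The multiplication by `l ^ e`, from degree `i` to degree `i + e` of the quotient of
`K[x_1, …, x_n]` by the ideal generated by the forms `f j`, is injective. -/
def Inj {K : Type} [Field K] {n r : ℕ} (f : Fin r → MvPolynomial (Fin n) K)
    (l : MvPolynomial (Fin n) K) (i e : ℕ) : Prop :=
  ∀ g : MvPolynomial (Fin n) K, g.IsHomogeneous i →
    l ^ e * g ∈ Ideal.span (Set.range f) → g ∈ Ideal.span (Set.range f)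

/-- For generic forms over `K` of the degrees `d j` in `n` variables (off a hypersurface in the
space of the coefficients) there is a linear form `l ≠ 0` such that the multiplication by `l ^ e`
from degree `i` to degree `i + e` of the quotient is injective whenever `i + e < k₀`. -/
def InjBelow (K : Type) [Field K] (n : ℕ) {r : ℕ} (d : Fin r → ℕ) (k₀ : ℕ) : Prop :=
  ∃ P : MvPolynomial (Σ i : Fin r, {a : Fin n →₀ ℕ // Finsupp.degree a = d i}) K,
    P ≠ 0 ∧
    ∀ f : Fin r → MvPolynomial (Fin n) K,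
      (∀ i, (f i).IsHomogeneous (d i)) →
      MvPolynomial.eval
          (fun s : (Σ i : Fin r, {a : Fin n →₀ ℕ // Finsupp.degree a = d i}) =>
            (f s.1).coeff s.2.1) P ≠ 0 →
      ∃ l : MvPolynomial (Fin n) K, l.IsHomogeneous 1 ∧ l ≠ 0 ∧
        ∀ i e : ℕ, i + e < k₀ → Inj f l i e

lemma InjBelow.mono {K : Type} [Field K] {n r : ℕ} {d : Fin r → ℕ} {k₀ k₁ : ℕ}
    (h : InjBelow K n d k₀) (hk : k₁ ≤ k₀) : InjBelow K n d k₁ := by
  obtain ⟨P, hP0, hP⟩ := h
  refine ⟨P, hP0, fun f hf hfP => ?_⟩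
  obtain ⟨l, h1, h2, h3⟩ := hP f hf hfP
  exact ⟨l, h1, h2, fun i e hie => h3 i e (lt_of_lt_of_le hie hk)⟩

theorem part1 (D m s c N : ℕ) (hm : 1 ≤ m) (hs : 1 ≤ s)
    (K : Type) [Field K] [CharZero K] (n r : ℕ) (d : Fin r → ℕ) (T : Fin r → Finset (Fin N))
    (hN : c + 1 + m * N ≤ n) (hd : ∀ i, 1 ≤ d i) (he : ∀ i, s * (T i).card ≤ d i)
    (hc0 : (Finset.univ.filter fun i => T i = ∅).card ≤ c)
    (hc : ∀ S : Finset (Fin N), S.card ≤ D → ∀ a ∈ S,
      (Finset.univ.filter fun i => a ∈ T i ∧ T i ⊆ S).card ≤ m) :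
    InjBelow K n d (s * (D + 1)) := by
  classical
  obtain ⟨P, hP0, hP⟩ :=
    Pool.Agent.Q248.BDP.inj_main D m s c N hm hs K n r hN d T hd he hc0 hc
  refine ⟨P, hP0, ?_⟩
  intro f hf hfP
  obtain ⟨l, h1, h2, h3⟩ := hP _ hfP
  refine ⟨l, h1, h2, ?_⟩
  have h4 : H350MG.fc (fun s : H350MG.Cf (Fin n) d => (f s.1).coeff s.2.1) = f :=
    funext fun i => H350MG.fc_coeff hf i
  rw [h4] at h3
  intro i e hie g hg hgJ
  have h5 : l ^ e * g ∈ H350MG.J (H350MG.fList d f) (i + e) := by
    rw [← H350MG.span_inf_eq hf (i + e)]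
    refine ⟨hgJ, ?_⟩
    have h6 : (l ^ e * g).IsHomogeneous (1 * e + i) := (h1.pow e).mul hg
    rw [one_mul, add_comm] at h6
    exact h6
  have h6 := h3 i e hie g hg h5
  rw [← H350MG.span_inf_eq hf i] at h6
  exact h6.1

/-- from a system of sets -/
theorem of_sys {κ L n r : ℕ} (X : Pool.Agent.Q248.BDP.Sys κ L n r) (hL : 1 ≤ L)
    (K : Type) [Field K] [CharZero K] (d : Fin r → ℕ) (δ : ℕ) (hδ : L ≤ δ) (hd : ∀ i, δ ≤ d i) :
    InjBelow K (n + 1) d (κ * δ) := by
  classical
  obtain ⟨s, hs⟩ : ∃ s, s = δ / L := ⟨_, rfl⟩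
  have hs1 : 1 ≤ s := by
    rw [hs]
    exact (Nat.one_le_div_iff (by omega)).2 hδ
  have hsδ : s * L ≤ δ := by
    rw [hs]
    exact Nat.div_mul_le_self δ L
  have hsδ' : δ ≤ 2 * (s * L) := by
    have h1 : δ < L * (s + 1) := by
      rw [hs]
      exact Nat.lt_mul_div_succ δ (by omega)
    nlinarith
  have h1 := part1 (2 * κ * L) X.m s 0 X.N X.hm hs1 K (n + 1) r d X.T
    (by have := X.hN; omega) (fun i => by have := hd i; omega)
    (fun i => by rw [X.hT i]; exact hsδ.trans (hd i)) (by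
    rw [Finset.filter_false_of_mem]
    · simp
    · intro i _ h
      have h2 := X.hT i
      rw [h, Finset.card_empty] at h2
      omega) X.hc
  refine h1.mono ?_
  calc κ * δ ≤ κ * (2 * (s * L)) := Nat.mul_le_mul_left _ hsδ'
    _ = s * (2 * κ * L) := by ring
    _ ≤ s * (2 * κ * L + 1) := Nat.mul_le_mul_left _ (Nat.le_succ _)

/-- **Injectivity of the powers of a linear form in degrees up to any multiple of the least
degree.** -/
theorem result :
    -- exponentially many forms
    (∀ κ u C : ℕ, 1 ≤ κ → 2 ≤ u → 1 ≤ C →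
      ∀ (K : Type) [Field K] [CharZero K] (n r : ℕ) (d : Fin r → ℕ) (δ : ℕ), 1 ≤ n → 1 ≤ δ →
        (∀ i, δ ≤ d i) → r ≤ C ^ ((u - 1) * min (n / (14 * κ ^ 2 * u * C ^ u)) δ) →
          InjBelow K (n + 1) d (κ * δ)) ∧
    -- polynomially many forms
    (∀ q κ : ℕ, 1 ≤ q → ∃ M : ℕ, 0 < M ∧
      ∀ (K : Type) [Field K] [CharZero K] (n r : ℕ) (d : Fin r → ℕ) (δ : ℕ), 1 ≤ n → q ≤ δ →
        (∀ i, δ ≤ d i) → r * M ≤ n ^ q → InjBelow K (n + 1) d (κ * δ)) ∧
    -- the general theorem
    (∀ (D m s c N : ℕ), 1 ≤ m → 1 ≤ s →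
      ∀ (K : Type) [Field K] [CharZero K] (n r : ℕ) (d : Fin r → ℕ)
        (T : Fin r → Finset (Fin N)), c + m * N ≤ n → (∀ i, 1 ≤ d i) →
        (∀ i, s * (T i).card ≤ d i) → (Finset.univ.filter fun i => T i = ∅).card ≤ c →
        (∀ S : Finset (Fin N), S.card ≤ D → ∀ a ∈ S,
          (Finset.univ.filter fun i => a ∈ T i ∧ T i ⊆ S).card ≤ m) →
        InjBelow K (n + 1) d (s * (D + 1))) := by
  classical
  refine ⟨?_, fun q κ hq => ?_, ?_⟩
  · intro κ u C hκ hu hC K _ _ n r d δ hn hδ hd hr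
    rcases Nat.eq_zero_or_pos (min (n / (14 * κ ^ 2 * u * C ^ u)) δ) with h0 | h1
    · rw [h0, mul_zero, pow_zero] at hr
      refine (part1 (κ * δ) 1 1 1 0 le_rfl le_rfl K (n + 1) r d (fun _ => ∅) (by omega)
        (fun i => le_trans hδ (hd i)) (fun i => by simp) ?_ ?_).mono (by omega)
      · refine (Finset.card_filter_le _ _).trans ?_
        rw [Finset.card_univ, Fintype.card_fin]
        exact hr
      · intro S _ a _
        simp
    · obtain ⟨X⟩ := Pool.Agent.Q248.BDP.sys_rnd hκ hu hC n _ r h1 (min_le_left _ _) hr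
      exact of_sys X h1 K d δ (min_le_right _ _) hd
  · obtain ⟨M, hM, hX⟩ := Pool.Agent.Q248.BDP.sys_poly q κ hq
    refine ⟨M, hM, ?_⟩
    intro K _ _ n r d δ _ hδ hd hr
    obtain ⟨X⟩ := hX n r hr
    exact of_sys X hq K d δ hδ hd
  · intro D m s c N hm hs K _ _ n r d T hN hd he hc0 hc
    exact part1 D m s c N hm hs K (n + 1) r d T (by omega) hd he hc0 hc

end Pool.Agent.Results.MP_2ad852_ag.StrongBelowMultiples
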